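import Pool.Agent.H47.ST.Targets

/-!
Board stk_modules, row GR: placement, regular case.
-/

namespace Pool.Agent.H35.STK

open Finset Pool.Agent.H47.ST

theorem wt_pos (R : ℕ) (W U : ℝ) (e hl r hr : ℕ) (hW : 1 ≤ W) (hU : 1 ≤ U) :
    0 < wt R W U e hl r hr := by
  unfold wt
  refine mul_pos (mul_pos (Real.exp_pos _) ?_) ?_
  · split_ifs
    · linarith
    · exact one_pos
  · split_ifs
    · linarith
    · exact one_pos

theorem phC_pos (R : ℕ) (W U : ℝ) (e : ℕ) (hW : 1 ≤ W) (hU : 1 ≤ U) :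
    ∀ (B : List ℕ) (hl hr : ℕ), 0 < phC R W U e hl B hr
  | [], _, _ => by simp [phC]
  | r :: B, hl, hr => by
    simp only [phC]
    exact mul_pos (wt_pos R W U e _ _ _ hW hU) (phC_pos R W U e hW hU B _ _)

theorem PA_pos (R : ℕ) (W U : ℝ) (e : ℕ) (hW : 1 ≤ W) (hU : 1 ≤ U) :
    ∀ st : List (List ℕ), 0 < PA R W U e st
  | [] => by simp [PA]
  | B :: st => by
    have ih := PA_pos R W U e hW hU st
    unfold PA at ih ⊢
    rw [List.map_cons, List.prod_cons]
    exact mul_pos (phC_pos R W U e hW hU B 0 0) ih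

theorem PA_append (R : ℕ) (W U : ℝ) (e : ℕ) (A C : List (List ℕ)) :
    PA R W U e (A ++ C) = PA R W U e A * PA R W U e C := by
  unfold PA
  rw [List.map_append, List.prod_append]

theorem PA_cons (R : ℕ) (W U : ℝ) (e : ℕ) (B : List ℕ) (C : List (List ℕ)) :
    PA R W U e (B :: C) = phC R W U e 0 B 0 * PA R W U e C := by
  unfold PA
  rw [List.map_cons, List.prod_cons]

theorem PA_upR (h1 : T_SC) (R : ℕ) (W U : ℝ) (e h : ℕ) (st : List (List ℕ)) (hW : 1 ≤ W)
    (hU : 1 ≤ U) (he : e < 2) : PA R W U e (upR e h st) ≤ PA R W U e st := by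
  obtain ⟨h2, -⟩ := h1 R W U e h st hW hU he
  have h3 : 1 ≤ U ^ (pops e h st).card := one_le_pow₀ hU
  have h4 := (PA_pos R W U e hW hU (upR e h st)).le
  nlinarith

theorem PA_upL (h1 : T_SC) (R : ℕ) (W U : ℝ) (e h : ℕ) (st : List (List ℕ)) (hW : 1 ≤ W)
    (hU : 1 ≤ U) (he : e < 2) : PA R W U e (upL (1 - e) h st) ≤ PA R W U e st := by
  obtain ⟨-, h2, -⟩ := h1 R W U e h st hW hU he
  have h3 : 1 ≤ U ^ (pops (1 - e) h (mir st)).card := one_le_pow₀ hU
  have h4 := (PA_pos R W U e hW hU (upL (1 - e) h st)).le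
  nlinarith

theorem pf_GR (h1 : T_SC) (h2 : T_MR) : T_GR := by
  intro R W U e c Ls X Y Rs hR hW hU he hY hc hX
  have m := h2 R W U e c X Y hR hW hU he hY hc hX
  have a := PA_upL h1 R W U e (top 0 X) Ls hW hU he
  have d := PA_upR h1 R W U e (top 0 Y) Rs hW hU he
  have a0 := (PA_pos R W U e hW hU (upL (1 - e) (top 0 X) Ls)).le
  have d0 := (PA_pos R W U e hW hU (upR e (top 0 Y) Rs)).le
  have A0 := (PA_pos R W U e hW hU Ls).le
  have b0 := (phC_pos R W U e hW hU (ins e X Y) 0 0).le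
  have W0 : 0 ≤ W ^ zK c X := by positivity
  unfold place
  rw [PA_append, PA_append, PA_cons, PA_cons]
  have m0 : 0 ≤ phC R W U e 0 (ins e X Y) 0 * Real.exp (2 * (zM c X Y : ℝ) / R) * W ^ zK c X := by
    positivity
  calc PA R W U e (upL (1 - e) (top 0 X) Ls) *
        (phC R W U e 0 (ins e X Y) 0 * PA R W U e (upR e (top 0 Y) Rs)) *
          Real.exp (2 * (zM c X Y : ℝ) / R) * W ^ zK c X
      = PA R W U e (upL (1 - e) (top 0 X) Ls) * PA R W U e (upR e (top 0 Y) Rs) *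
        (phC R W U e 0 (ins e X Y) 0 * Real.exp (2 * (zM c X Y : ℝ) / R) * W ^ zK c X) := by ring
    _ ≤ PA R W U e Ls * PA R W U e Rs *
        (U ^ 2 * Real.exp (((R : ℝ) - 1 - c) / R) * phC R W U e 0 (X ++ Y) 0) :=
        mul_le_mul (mul_le_mul a d d0 A0) m m0
          (mul_nonneg A0 (PA_pos R W U e hW hU Rs).le)
    _ = _ := by ring

end Pool.Agent.H35.STK
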