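import Pool.Agent.H47.ST.Targets

/-!
Board stk_modules, row PN: the number of the placements.
-/

namespace Pool.Agent.H35.STK

open Finset Pool.Agent.H47.ST

theorem plc_length : ∀ (st Ls : List (List ℕ)),
    (plc Ls st).length = st.flatten.length + st.length
  | [], Ls => by simp [plc]
  | B :: Rs, Ls => by
    have ih := plc_length Rs (Ls ++ [B])
    simp only [plc, List.length_append, List.length_map, List.length_range, List.flatten_cons,
      List.length_cons]
    rw [ih]
    omega

theorem pf_PN : T_PN := fun _ st => plc_length st []

end Pool.Agent.H35.STK
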