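import Pool.Agent.H47.ST.Targets

/-!
Board stk_modules, row RUN: the recursion of the stack sort operator is the stack machine.
-/

namespace Pool.Agent.H35.STK

open Finset Pool.Agent.H47.ST

theorem takeWhile_all (m : ℕ) : ∀ st : List ℕ, (∀ x ∈ st, x < m) →
    st.takeWhile (fun x => decide (x < m)) = st ∧ st.dropWhile (fun x => decide (x < m)) = []
  | [], _ => by simp
  | a :: st, h => by
    have ha : a < m := h a List.mem_cons_self
    obtain ⟨h1, h2⟩ := takeWhile_all m st (fun x hx => h x (List.mem_cons_of_mem _ hx))
    constructor
    · rw [List.takeWhile_cons_of_pos (by simpa using ha), h1]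
    · rw [List.dropWhile_cons_of_pos (by simpa using ha), h2]

theorem takeWhile_snoc (a m : ℕ) (h : a ≤ m) : ∀ st : List ℕ,
    (st ++ [m]).takeWhile (fun x => decide (x < a)) = st.takeWhile (fun x => decide (x < a)) ∧
    (st ++ [m]).dropWhile (fun x => decide (x < a)) =
      st.dropWhile (fun x => decide (x < a)) ++ [m]
  | [] => by
    have hm : ¬ m < a := by omega
    simp [hm]
  | b :: st => by
    obtain ⟨h1, h2⟩ := takeWhile_snoc a m h st
    by_cases hb : b < a
    · constructor
      · rw [List.cons_append, List.takeWhile_cons_of_pos (by simpa using hb), h1,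
          List.takeWhile_cons_of_pos (by simpa using hb)]
      · rw [List.cons_append, List.dropWhile_cons_of_pos (by simpa using hb), h2,
          List.dropWhile_cons_of_pos (by simpa using hb)]
    · constructor
      · rw [List.cons_append, List.takeWhile_cons_of_neg (by simpa using hb),
          List.takeWhile_cons_of_neg (by simpa using hb)]
      · rw [List.cons_append, List.dropWhile_cons_of_neg (by simpa using hb),
          List.dropWhile_cons_of_neg (by simpa using hb), List.cons_append]

/-- a large letter at the bottom of the stack is never popped -/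
theorem run_snoc (m : ℕ) : ∀ (v st : List ℕ), (∀ x ∈ v, x < m) →
    run v (st ++ [m]) = run v st ++ [m]
  | [], st, _ => rfl
  | a :: v, st, h => by
    have ha : a < m := h a List.mem_cons_self
    obtain ⟨h1, h2⟩ := takeWhile_snoc a m ha.le st
    have ih := run_snoc m v (a :: st.dropWhile (fun x => decide (x < a)))
      (fun x hx => h x (List.mem_cons_of_mem _ hx))
    simp only [run]
    rw [h1, h2, ← List.cons_append, ih, List.append_assoc]

/-- a large letter pops the whole stack -/
theorem run_big (m : ℕ) (v : List ℕ) : ∀ (u st : List ℕ), (∀ x ∈ u, x < m) → (∀ x ∈ st, x < m) →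
    run (u ++ m :: v) st = run u st ++ run v [m]
  | [], st, _, hst => by
    obtain ⟨h1, h2⟩ := takeWhile_all m st hst
    simp only [List.nil_append, run]
    rw [h1, h2]
  | a :: u, st, hu, hst => by
    have ha : a < m := hu a List.mem_cons_self
    have ih := run_big m v u (a :: st.dropWhile (fun x => decide (x < a)))
      (fun x hx => hu x (List.mem_cons_of_mem _ hx)) (by
        intro x hx
        rcases List.mem_cons.1 hx with rfl | hx
        · exact ha
        · exact hst x ((List.dropWhile_sublist _).subset hx))
    rw [List.cons_append]
    simp only [run]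
    rw [ih, List.append_assoc]

theorem run_split (L R : List ℕ) (m : ℕ) (hL : ∀ x ∈ L, x < m) (hR : ∀ x ∈ R, x < m) :
    run (L ++ m :: R) [] = run L [] ++ run R [] ++ [m] := by
  have h1 := run_big m R L [] hL (by simp)
  have h2 := run_snoc m R [] hR
  rw [h1, List.append_assoc]
  rw [List.nil_append] at h2
  rw [h2]

theorem le_mx {w : List ℕ} : ∀ x ∈ w, x ≤ mx w := by
  induction w with
  | nil => simp
  | cons a w ih =>
    intro x hx
    simp only [mx, List.foldr_cons] at ih ⊢
    rcases List.mem_cons.1 hx with rfl | hx
    · exact le_max_left _ _
    · exact (ih x hx).trans (le_max_right _ _)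

theorem split_mem {w : List ℕ} {m : ℕ} (h : m ∈ w) :
    w = w.takeWhile (fun x => decide (x ≠ m)) ++
      m :: (w.dropWhile (fun x => decide (x ≠ m))).tail := by
  induction w with
  | nil => simp at h
  | cons a w ih =>
    by_cases ha : a = m
    · subst ha; simp
    · have hm : m ∈ w := by
        rcases List.mem_cons.1 h with h | h
        · exact absurd h.symm ha
        · exact h
      have h1 := ih hm
      rw [List.takeWhile_cons_of_pos (by simpa using ha),
        List.dropWhile_cons_of_pos (by simpa using ha), List.cons_append, ← h1]

theorem pf_RUN : T_RUN := by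
  intro w
  induction hn : w.length using Nat.strong_induction_on generalizing w with
  | _ n ih =>
    intro hw
    by_cases h0 : w = []
    · subst h0
      rw [S]
      simp [run]
    · have hsp := split_mem (mx_mem h0)
      have hl1 := length_takeWhile_lt (mx_mem h0)
      have hl2 := length_tail_dropWhile_lt w (mx w) h0
      have hle : ∀ x ∈ w, x ≤ mx w := le_mx
      have hnd := hw
      rw [hsp] at hnd
      rw [S, dif_neg h0]
      generalize hL : w.takeWhile (fun x => decide (x ≠ mx w)) = L at *
      generalize hR : (w.dropWhile (fun x => decide (x ≠ mx w))).tail = R at *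
      generalize hm : mx w = m at *
      have hnd1 := List.nodup_append.1 hnd
      obtain ⟨n1, n2, n3⟩ := hnd1
      obtain ⟨n4, n5⟩ := List.nodup_cons.1 n2
      have hLm : ∀ x ∈ L, x < m := by
        intro x hx
        have h1 : x ≤ m := hle x (by rw [hsp]; exact List.mem_append_left _ hx)
        have h2 : x ≠ m := n3 x hx m List.mem_cons_self
        omega
      have hRm : ∀ x ∈ R, x < m := by
        intro x hx
        have h1 : x ≤ m := hle x (by
          rw [hsp]; exact List.mem_append_right _ (List.mem_cons_of_mem _ hx))
        have h2 : x ≠ m := by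
          rintro rfl
          exact n4 hx
        omega
      rw [ih L.length (by omega) L rfl n1, ih R.length (by omega) R rfl n5]
      conv_rhs => rw [hsp]
      rw [run_split L R m hLm hRm]

end Pool.Agent.H35.STK
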